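import Pool.Agent.H14.LT.Cone

set_option autoImplicit false
set_option linter.unusedSectionVars false

/-!
# Every point of the closure of the union of the unimodular subspaces is a limit direction
-/

namespace Pool.Agent.Results.MP_de6c1e_al.ClosureOfUnimodular

open Filter Topology LinearAlgebra.Projectivization Pool.Agent.H14.LT

/-! ### Geometric Coxeter systems, limit directions, unimodular subspaces -/

/-- A Coxeter system of finite rank given by its Coxeter matrix `M` (the entry `0` stands for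
infinity) together with the matrix `b` of a geometric bilinear form. -/
structure GeomCoxeter (ι : Type) where
  /-- The Coxeter matrix. -/
  M : CoxeterMatrix ι
  /-- The values of the form on the simple roots. -/
  b : ι → ι → ℝ
  b_symm : ∀ s t, b s t = b t s
  b_diag : ∀ s, b s s = 1
  b_fin : ∀ s t, M s t ≠ 0 → b s t = -Real.cos (Real.pi / M s t)
  b_inf : ∀ s t, M s t = 0 → b s t ≤ -1

section General

variable {ι : Type} [Fintype ι] [DecidableEq ι]

/-- The simple root with index `s`. -/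
def al (s : ι) : ι → ℝ := Pi.single s 1

/-- The bilinear form. -/
def GeomCoxeter.form (D : GeomCoxeter ι) (x y : ι → ℝ) : ℝ := ∑ s, ∑ t, x s * y t * D.b s t

/-- The bilinear form as a bilinear map. -/
def GeomCoxeter.formL (D : GeomCoxeter ι) : (ι → ℝ) →ₗ[ℝ] (ι → ℝ) →ₗ[ℝ] ℝ :=
  LinearMap.mk₂ ℝ (fun x y => D.form x y)
    (fun x x' y => by
      unfold GeomCoxeter.form
      rw [← Finset.sum_add_distrib]
      refine Finset.sum_congr rfl fun s _ => ?_
      rw [← Finset.sum_add_distrib]
      refine Finset.sum_congr rfl fun t _ => ?_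
      rw [Pi.add_apply]
      ring)
    (fun c x y => by
      unfold GeomCoxeter.form
      rw [smul_eq_mul, Finset.mul_sum]
      refine Finset.sum_congr rfl fun s _ => ?_
      rw [Finset.mul_sum]
      refine Finset.sum_congr rfl fun t _ => ?_
      rw [Pi.smul_apply, smul_eq_mul]
      ring)
    (fun x y y' => by
      unfold GeomCoxeter.form
      rw [← Finset.sum_add_distrib]
      refine Finset.sum_congr rfl fun s _ => ?_
      rw [← Finset.sum_add_distrib]
      refine Finset.sum_congr rfl fun t _ => ?_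
      rw [Pi.add_apply]
      ring)
    (fun c x y => by
      unfold GeomCoxeter.form
      rw [smul_eq_mul, Finset.mul_sum]
      refine Finset.sum_congr rfl fun s _ => ?_
      rw [Finset.mul_sum]
      refine Finset.sum_congr rfl fun t _ => ?_
      rw [Pi.smul_apply, smul_eq_mul]
      ring)

lemma GeomCoxeter.form_eq (D : GeomCoxeter ι) (x y : ι → ℝ) : D.form x y = D.formL x y := rfl

lemma GeomCoxeter.form_comm (D : GeomCoxeter ι) (x y : ι → ℝ) : D.formL x y = D.formL y x := by
  show ∑ s, ∑ t, x s * y t * D.b s t = ∑ s, ∑ t, y s * x t * D.b s t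
  rw [Finset.sum_comm]
  refine Finset.sum_congr rfl (fun s _ => Finset.sum_congr rfl (fun t _ => ?_))
  rw [D.b_symm]
  ring

lemma GeomCoxeter.form_al_al (D : GeomCoxeter ι) (s t : ι) : D.formL (al s) (al t) = D.b s t := by
  show ∑ u, ∑ v, al s u * al t v * D.b u v = D.b s t
  unfold al
  rw [Finset.sum_eq_single s, Finset.sum_eq_single t]
  · simp
  · intro u _ hu
    simp [Pi.single_eq_of_ne hu]
  · simp
  · intro u _ hu
    simp [Pi.single_eq_of_ne hu]
  · simp

/-- The map `x ↦ x - 2 B(α_s, x) α_s`, as a linear map. -/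
def GeomCoxeter.reflLin (D : GeomCoxeter ι) (s : ι) : (ι → ℝ) →ₗ[ℝ] (ι → ℝ) where
  toFun x := x - (2 * D.form (al s) x) • al s
  map_add' x y := by
    rw [D.form_eq, D.form_eq, D.form_eq, map_add, mul_add, add_smul]
    abel
  map_smul' c x := by
    rw [D.form_eq, D.form_eq, map_smul, RingHom.id_apply, smul_sub, smul_smul, smul_eq_mul]
    congr 2
    ring

lemma GeomCoxeter.reflLin_invol (D : GeomCoxeter ι) (s : ι) :
    Function.Involutive (D.reflLin s) := by
  intro x
  have h1 : ∀ y, D.reflLin s y = y - (2 * D.formL (al s) y) • al s := fun _ => rfl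
  have h2 : D.formL (al s) (x - (2 * D.formL (al s) x) • al s) = -D.formL (al s) x := by
    rw [map_sub, map_smul, D.form_al_al, D.b_diag, smul_eq_mul]
    ring
  rw [h1, h1, h2, sub_sub, ← add_smul]
  have h3 : 2 * D.formL (al s) x + 2 * -D.formL (al s) x = 0 := by ring
  rw [h3, zero_smul, sub_zero]

/-- The reflection `x ↦ x - 2 B(α_s, x) α_s`. -/
def GeomCoxeter.refl (D : GeomCoxeter ι) (s : ι) : (ι → ℝ) ≃ₗ[ℝ] (ι → ℝ) :=
  LinearEquiv.ofInvolutive (D.reflLin s) (D.reflLin_invol s)

lemma GeomCoxeter.refl_apply (D : GeomCoxeter ι) (s : ι) (x : ι → ℝ) :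
    D.refl s x = x - (2 * D.formL (al s) x) • al s := rfl

/-- The Coxeter group, as the group of linear maps generated by the simple reflections. -/
def GeomCoxeter.W (D : GeomCoxeter ι) : Subgroup ((ι → ℝ) ≃ₗ[ℝ] (ι → ℝ)) :=
  Subgroup.closure (Set.range D.refl)

/-- The system is Lorentzian: in suitable linear coordinates the quadratic form is a sum of
squares with exactly one negative sign. -/
def GeomCoxeter.Lorentzian (D : GeomCoxeter ι) : Prop :=
  ∃ (i₀ : ι) (e : (ι → ℝ) ≃ₗ[ℝ] (ι → ℝ)), ∀ x : ι → ℝ,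
    D.form x x = ∑ i, (if i = i₀ then -1 else 1) * (e x i) ^ 2

/-- The usual topology of the real projective space. -/
noncomputable instance projTop : TopologicalSpace (ℙ ℝ (ι → ℝ)) :=
  TopologicalSpace.coinduced (Projectivization.mk' ℝ) inferInstance

/-- The orbit of a point of the projective space. -/
noncomputable def GeomCoxeter.orbit (D : GeomCoxeter ι) (p : ℙ ℝ (ι → ℝ)) : Set (ℙ ℝ (ι → ℝ)) :=
  {q | ∃ g ∈ D.W, q = Projectivization.map (g : (ι → ℝ) →ₗ[ℝ] (ι → ℝ)) g.injective p}

/-- The limits of the injective sequences of points of the orbit of `p₀`. -/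
def LimFrom (D : GeomCoxeter ι) (p₀ : ℙ ℝ (ι → ℝ)) : Set (ℙ ℝ (ι → ℝ)) :=
  {p | ∃ f : ℕ → ℙ ℝ (ι → ℝ), (∀ n, f n ∈ D.orbit p₀) ∧ Function.Injective f ∧
    Tendsto f atTop (𝓝 p)}

/-- The set `E_V` of limit directions. -/
def limitDirections (D : GeomCoxeter ι) : Set (ℙ ℝ (ι → ℝ)) := ⋃ p₀, LimFrom D p₀

/-- A linear map is hyperbolic if its (complexified) matrix has an eigenvalue of modulus `> 1`. -/
def IsHyperbolic (w : (ι → ℝ) ≃ₗ[ℝ] (ι → ℝ)) : Prop :=
  ∃ (μ : ℂ) (z : ι → ℂ), 1 < ‖μ‖ ∧ z ≠ 0 ∧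
    ((LinearMap.toMatrix' (w : (ι → ℝ) →ₗ[ℝ] (ι → ℝ))).map Complex.ofReal).mulVec z = μ • z

/-- The unimodular subspace `U_w`: the vectors orthogonal to all eigenvectors of `w` with an
eigenvalue of modulus different from `1`. -/
def unimod (D : GeomCoxeter ι) (w : (ι → ℝ) ≃ₗ[ℝ] (ι → ℝ)) : Set (ι → ℝ) :=
  {v | ∀ (x : ι → ℝ) (a : ℝ), w x = a • x → |a| ≠ 1 → D.form v x = 0}

/-- The union of the projectivised unimodular subspaces of the hyperbolic elements. -/
def unimodHyp (D : GeomCoxeter ι) : Set (ℙ ℝ (ι → ℝ)) :=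
  {p | ∃ w ∈ D.W, IsHyperbolic w ∧ p.rep ∈ unimod D w}

/-! ### The projective space -/

lemma continuous_mk' : Continuous (Projectivization.mk' ℝ : {v : ι → ℝ // v ≠ 0} → ℙ ℝ (ι → ℝ)) :=
  continuous_coinduced_rng

/-- The set of the directions of vectors with a multiple close to `v`. -/
def nearDir (v : ι → ℝ) (ε : ℝ) : Set (ℙ ℝ (ι → ℝ)) :=
  {q | ∃ (u : ι → ℝ) (hu : u ≠ 0), ‖u - v‖ < ε ∧ q = Projectivization.mk ℝ u hu}

lemma nearDir_open (v : ι → ℝ) (ε : ℝ) : IsOpen (nearDir v ε) := by
  rw [isOpen_coinduced]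
  have h1 : Projectivization.mk' ℝ ⁻¹' nearDir v ε =
      ⋃ a : {a : ℝ // a ≠ 0}, {u : {v : ι → ℝ // v ≠ 0} | ‖a.1 • u.1 - v‖ < ε} := by
    ext u
    constructor
    · rintro ⟨w, hw, hwv, h⟩
      rw [Projectivization.mk'_eq_mk, Projectivization.mk_eq_mk_iff'] at h
      obtain ⟨a, ha⟩ := h
      have ha0 : a ≠ 0 := by
        rintro rfl
        rw [zero_smul] at ha
        exact u.2 ha.symm
      refine Set.mem_iUnion.2 ⟨⟨a⁻¹, inv_ne_zero ha0⟩, ?_⟩
      show ‖a⁻¹ • u.1 - v‖ < ε
      rw [← ha, smul_smul, inv_mul_cancel₀ ha0, one_smul]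
      exact hwv
    · intro h
      obtain ⟨⟨a, ha⟩, h⟩ := Set.mem_iUnion.1 h
      refine ⟨a • u.1, smul_ne_zero ha u.2, h, ?_⟩
      rw [Projectivization.mk'_eq_mk, Projectivization.mk_eq_mk_iff']
      exact ⟨a⁻¹, by rw [smul_smul, inv_mul_cancel₀ ha, one_smul]⟩
  rw [h1]
  apply isOpen_iUnion
  intro a
  apply isOpen_lt
  · exact (((continuous_const_smul a.1).comp continuous_subtype_val).sub continuous_const).norm
  · exact continuous_const

lemma mem_nearDir {v : ι → ℝ} (hv : v ≠ 0) {ε : ℝ} (hε : 0 < ε) :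
    Projectivization.mk ℝ v hv ∈ nearDir v ε :=
  ⟨v, hv, by rw [sub_self, norm_zero]; exact hε, rfl⟩

/-- If vectors tend to `v ≠ 0` then the directions tend to the direction of `v`. -/
lemma tendsto_mk {u : ℕ → ι → ℝ} {v : ι → ℝ} (hv : v ≠ 0) (hu : ∀ n, u n ≠ 0)
    (h : Tendsto u atTop (𝓝 v)) :
    Tendsto (fun n => Projectivization.mk ℝ (u n) (hu n)) atTop
      (𝓝 (Projectivization.mk ℝ v hv)) := by
  have h1 : Tendsto (fun n => (⟨u n, hu n⟩ : {v : ι → ℝ // v ≠ 0})) atTop (𝓝 ⟨v, hv⟩) :=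
    tendsto_subtype_rng.2 h
  exact (continuous_mk'.tendsto _).comp h1

/-- Extraction of an injective subsequence. -/
lemma extract {X : Type} {f : ℕ → X} (h : ∀ x, {n | f n = x}.Finite) :
    ∃ φ : ℕ → ℕ, StrictMono φ ∧ Function.Injective (f ∘ φ) := by
  classical
  obtain ⟨φ, _, hφ⟩ := exists_seq_of_forall_finset_exists (fun _ : ℕ => True)
    (fun a b => a < b ∧ f a ≠ f b) (by
      intro s _
      have h1 : (⋃ a ∈ s, {n | f n = f a}).Finite := s.finite_toSet.biUnion (fun a _ => h _)
      obtain ⟨N, hN⟩ := h1.bddAbove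
      obtain ⟨M, hM⟩ := s.finite_toSet.bddAbove
      refine ⟨max N M + 1, trivial, fun a ha => ⟨?_, ?_⟩⟩
      · have := hM ha
        omega
      · intro heq
        have h2 : max N M + 1 ∈ ⋃ a ∈ s, {n | f n = f a} :=
          Set.mem_biUnion ha heq.symm
        have := hN h2
        omega)
  refine ⟨φ, strictMono_nat_of_lt_succ (fun n => (hφ n (n + 1) (by omega)).1), ?_⟩
  intro m n hmn
  rcases lt_trichotomy m n with h1 | h1 | h1
  · exact absurd hmn (hφ m n h1).2
  · exact h1
  · exact absurd hmn.symm (hφ n m h1).2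

/-- A criterion for limit directions. -/
lemma limit_of_near (D : GeomCoxeter ι) {v0 x : ι → ℝ} (hv0 : v0 ≠ 0) (hx : x ≠ 0)
    (h : ∀ ε : ℝ, 0 < ε → ∃ g ∈ D.W, ∃ c : ℝ, c ≠ 0 ∧ ‖c • g v0 - x‖ < ε ∧
      ∀ t : ℝ, g v0 ≠ t • x) :
    Projectivization.mk ℝ x hx ∈ limitDirections D := by
  choose g hg c hc hgc hne using fun n : ℕ => h (1 / ((n : ℝ) + 1)) (by positivity)
  have hgv : ∀ n, g n v0 ≠ 0 := fun n h0 => hv0 ((g n).injective (h0.trans (map_zero _).symm))
  have hu : ∀ n, c n • g n v0 ≠ 0 := fun n => smul_ne_zero (hc n) (hgv n)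
  have hlim : Tendsto (fun n => c n • g n v0) atTop (𝓝 x) := by
    rw [tendsto_iff_norm_sub_tendsto_zero]
    exact squeeze_zero (fun _ => norm_nonneg _) (fun n => (hgc n).le)
      tendsto_one_div_add_atTop_nhds_zero_nat
  have hlim2 := tendsto_mk hx hu hlim
  have heq : ∀ n, Projectivization.mk ℝ (c n • g n v0) (hu n) =
      Projectivization.mk ℝ (g n v0) (hgv n) := by
    intro n
    rw [Projectivization.mk_eq_mk_iff']
    exact ⟨c n, rfl⟩
  have hfib : ∀ q : ℙ ℝ (ι → ℝ),
      {n | Projectivization.mk ℝ (c n • g n v0) (hu n) = q}.Finite := by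
    intro q
    by_contra hcon
    have hinf : {n | Projectivization.mk ℝ (c n • g n v0) (hu n) = q}.Infinite := hcon
    have hfreq : ∃ᶠ n in atTop, Projectivization.mk ℝ (c n • g n v0) (hu n) = q :=
      Nat.frequently_atTop_iff_infinite.2 hinf
    have hcl : x ∈ closure ((Submodule.span ℝ {q.rep} : Submodule ℝ (ι → ℝ)) : Set (ι → ℝ)) := by
      apply mem_closure_of_frequently_of_tendsto _ hlim
      refine hfreq.mono (fun n hn => ?_)
      rw [← q.mk_rep, Projectivization.mk_eq_mk_iff'] at hn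
      obtain ⟨t, ht⟩ := hn
      rw [← ht]
      exact Submodule.smul_mem _ _ (Submodule.mem_span_singleton_self _)
    rw [(Submodule.closed_of_finiteDimensional (Submodule.span ℝ {q.rep})).closure_eq] at hcl
    obtain ⟨t, ht⟩ := Submodule.mem_span_singleton.1 hcl
    obtain ⟨n, hn⟩ := hfreq.exists
    rw [← q.mk_rep, Projectivization.mk_eq_mk_iff'] at hn
    obtain ⟨s, hs⟩ := hn
    have ht0 : t ≠ 0 := by
      rintro rfl
      rw [zero_smul] at ht
      exact hx ht.symm
    apply hne n ((c n)⁻¹ * s * t⁻¹)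
    rw [← ht, smul_smul, mul_assoc, inv_mul_cancel₀ ht0, mul_one, mul_smul, hs, smul_smul,
      inv_mul_cancel₀ (hc n), one_smul]
  obtain ⟨φ, hφ, hinj⟩ := extract hfib
  refine Set.mem_iUnion.2 ⟨Projectivization.mk ℝ v0 hv0,
    (fun n => Projectivization.mk ℝ (c n • g n v0) (hu n)) ∘ φ, ?_, hinj,
    hlim2.comp hφ.tendsto_atTop⟩
  intro n
  refine ⟨g (φ n), hg _, ?_⟩
  show Projectivization.mk ℝ (c (φ n) • g (φ n) v0) (hu (φ n)) = _
  rw [heq]
  rfl

/-! ### The group and the form -/

lemma GeomCoxeter.form_refl (D : GeomCoxeter ι) (s : ι) (x y : ι → ℝ) :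
    D.formL (D.refl s x) (D.refl s y) = D.formL x y := by
  rw [D.refl_apply, D.refl_apply]
  simp only [map_sub, map_smul, LinearMap.sub_apply, LinearMap.smul_apply, smul_eq_mul]
  rw [D.form_al_al, D.b_diag, D.form_comm x (al s)]
  ring

lemma GeomCoxeter.form_W (D : GeomCoxeter ι) {g : (ι → ℝ) ≃ₗ[ℝ] (ι → ℝ)} (hg : g ∈ D.W)
    (x y : ι → ℝ) : D.formL (g x) (g y) = D.formL x y := by
  unfold GeomCoxeter.W at hg
  induction hg using Subgroup.closure_induction generalizing x y with
  | mem g hg =>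
      obtain ⟨s, rfl⟩ := hg
      exact D.form_refl s x y
  | one => rfl
  | mul g h _ _ hg hh =>
      show D.formL (g (h x)) (g (h y)) = _
      rw [hg, hh]
  | inv g _ hg =>
      have h1 : ∀ z, g (g⁻¹ z) = z := fun z => by
        show (g * g⁻¹) z = z
        rw [mul_inv_cancel]
        rfl
      rw [← hg, h1, h1]

lemma countable_closure' {G : Type*} [Group G] (S : Set G) [Countable S] :
    Countable (Subgroup.closure S) := by
  rw [FreeGroup.closure_eq_range]
  have : Countable (FreeGroup S) := Quot.mk_surjective.countable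
  exact (MonoidHom.rangeRestrict_surjective _).countable

lemma eq_zero_of_al (D : GeomCoxeter ι) {x : ι → ℝ} (h : ∀ s, D.formL (al s) x = 0) (y : ι → ℝ) :
    D.formL x y = 0 := by
  have hy : y = ∑ s, y s • al s := by
    ext t
    simp [al, Finset.sum_apply, Pi.single_apply]
  rw [D.form_comm, hy, map_sum, LinearMap.sum_apply]
  refine Finset.sum_eq_zero fun s _ => ?_
  rw [map_smul, LinearMap.smul_apply, h, smul_zero]

/-- The Lorentzian space with a group of isometries contained in the Coxeter group. -/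
def ctx (D : GeomCoxeter ι) {e : ι → ℝ} (he : D.formL e e < 0)
    (hpos : ∀ v, D.formL v e = 0 → v ≠ 0 → 0 < D.formL v v)
    (G : Subgroup ((ι → ℝ) ≃ₗ[ℝ] (ι → ℝ))) (hG : G ≤ D.W) : Ctx (ι → ℝ) where
  B := D.formL
  symm := D.form_comm
  e := e
  he := he
  pos := hpos
  G := G
  inv := fun _ hg x y => D.form_W (hG hg) x y

lemma exists_e (D : GeomCoxeter ι) (hD : D.Lorentzian) :
    ∃ e : ι → ℝ, D.formL e e < 0 ∧ ∀ v, D.formL v e = 0 → v ≠ 0 → 0 < D.formL v v := by
  obtain ⟨i₀, E, hE⟩ := hD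
  have pol : ∀ x y, D.formL x y = ∑ i, (if i = i₀ then -1 else 1) * (E x i * E y i) := by
    intro x y
    have h1 := hE (x + y)
    have h2 : D.formL (x + y) (x + y) = D.formL x x + 2 * D.formL x y + D.formL y y := by
      simp only [map_add, LinearMap.add_apply]
      rw [D.form_comm y x]
      ring
    have h3 : ∑ i, (if i = i₀ then (-1 : ℝ) else 1) * (E (x + y) i) ^ 2 =
        (∑ i, (if i = i₀ then (-1 : ℝ) else 1) * (E x i) ^ 2) +
        2 * (∑ i, (if i = i₀ then (-1 : ℝ) else 1) * (E x i * E y i)) +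
        ∑ i, (if i = i₀ then (-1 : ℝ) else 1) * (E y i) ^ 2 := by
      rw [Finset.mul_sum, ← Finset.sum_add_distrib, ← Finset.sum_add_distrib]
      refine Finset.sum_congr rfl fun i _ => ?_
      rw [map_add, Pi.add_apply]
      ring
    rw [D.form_eq, h2, h3, ← D.form_eq x x, ← D.form_eq y y, hE x, hE y] at h1
    linarith
  refine ⟨E.symm (Pi.single i₀ 1), ?_, fun v hv hv0 => ?_⟩
  · rw [pol, Finset.sum_eq_single i₀]
    · simp
    · intro i _ hi
      simp [Pi.single_eq_of_ne hi]
    · simp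
  · have h1 : E v i₀ = 0 := by
      rw [pol, Finset.sum_eq_single i₀] at hv
      · simpa using hv
      · intro i _ hi
        simp [Pi.single_eq_of_ne hi]
      · simp
    have h2 : E v ≠ 0 := fun h => hv0 (E.injective (h.trans (map_zero E).symm))
    obtain ⟨j, hj⟩ := Function.ne_iff.1 h2
    have hj0 : j ≠ i₀ := by
      rintro rfl
      exact hj h1
    rw [pol]
    have hterm : ∀ i, 0 ≤ (if i = i₀ then (-1 : ℝ) else 1) * (E v i * E v i) := by
      intro i
      split_ifs with h
      · rw [h, h1]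
        simp
      · rw [one_mul]
        exact mul_self_nonneg _
    refine Finset.sum_pos' (fun i _ => hterm i) ⟨j, Finset.mem_univ _, ?_⟩
    rw [if_neg hj0, one_mul]
    exact mul_self_pos.2 hj

/-! ### Reduction to the span of the light-like eigenvectors -/

section Red

variable (D : GeomCoxeter ι) {e : ι → ℝ} (he : D.formL e e < 0)
  (hpos : ∀ v, D.formL v e = 0 → v ≠ 0 → 0 < D.formL v v)

/-- The Lorentzian space with the whole Coxeter group. -/
abbrev CW : Ctx (ι → ℝ) := ctx D he hpos D.W le_rfl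

/-- The subgroup generated by the reflections in the simple roots in the span of the light-like
eigenvectors. -/
def Gsub : Subgroup ((ι → ℝ) ≃ₗ[ℝ] (ι → ℝ)) :=
  Subgroup.closure (D.refl '' {s | al s ∈ (CW D he hpos).V1})

lemma Gsub_le : Gsub D he hpos ≤ D.W := Subgroup.closure_mono (Set.image_subset_range _ _)

/-- The Lorentzian space with this subgroup. -/
abbrev CG : Ctx (ι → ℝ) := ctx D he hpos (Gsub D he hpos) (Gsub_le D he hpos)

instance : Countable (CG D he hpos).G := by
  show Countable (Subgroup.closure (D.refl '' {s | al s ∈ (CW D he hpos).V1}))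
  exact countable_closure' _

lemma refl_memW (s : ι) : D.refl s ∈ D.W := Subgroup.subset_closure ⟨s, rfl⟩

lemma root_alt (s : ι) : al s ∈ (CW D he hpos).V1 ∨
    ∀ v ∈ (CW D he hpos).V1, D.formL (al s) v = 0 := by
  by_contra hcon
  push Not at hcon
  obtain ⟨h1, v, hv, hv0⟩ := hcon
  apply h1
  have h2 : D.refl s v ∈ (CW D he hpos).V1 := (CW D he hpos).V1_map (k := D.refl s)
    (refl_memW D s) hv
  rw [D.refl_apply] at h2
  have h3 := (CW D he hpos).V1.sub_mem hv h2
  rw [sub_sub_cancel] at h3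
  have h4 := (CW D he hpos).V1.smul_mem (2 * D.formL (al s) v)⁻¹ h3
  rwa [smul_smul, inv_mul_cancel₀ (mul_ne_zero two_ne_zero hv0), one_smul] at h4

lemma agree {w : (ι → ℝ) ≃ₗ[ℝ] (ι → ℝ)} (hw : w ∈ D.W) :
    ∃ g ∈ Gsub D he hpos, ∀ v ∈ (CW D he hpos).V1, w v = g v := by
  unfold GeomCoxeter.W at hw
  induction hw using Subgroup.closure_induction with
  | mem w hw =>
      obtain ⟨s, rfl⟩ := hw
      rcases root_alt D he hpos s with h | h
      · exact ⟨D.refl s, Subgroup.subset_closure ⟨s, h, rfl⟩, fun v _ => rfl⟩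
      · refine ⟨1, Subgroup.one_mem _, fun v hv => ?_⟩
        rw [D.refl_apply, h v hv, mul_zero, zero_smul, sub_zero]
        rfl
  | one => exact ⟨1, Subgroup.one_mem _, fun v _ => rfl⟩
  | mul w w' _ hw' ih ih' =>
      obtain ⟨g, hg, h⟩ := ih
      obtain ⟨g', hg', h'⟩ := ih'
      refine ⟨g * g', Subgroup.mul_mem _ hg hg', fun v hv => ?_⟩
      have h1 : g' v ∈ (CW D he hpos).V1 :=
        (CW D he hpos).V1_map (k := g') (Gsub_le D he hpos hg') hv
      show w (w' v) = g (g' v)
      rw [h' v hv, h _ h1]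
  | inv w hw ih =>
      obtain ⟨g, hg, h⟩ := ih
      refine ⟨g⁻¹, Subgroup.inv_mem _ hg, fun v hv => ?_⟩
      have h1 : g⁻¹ v ∈ (CW D he hpos).V1 := (CW D he hpos).V1_map (k := g⁻¹)
        (Gsub_le D he hpos (Subgroup.inv_mem _ hg)) hv
      have h2 := h _ h1
      have h3 : g (g⁻¹ v) = v := LinearEquiv.apply_symm_apply g v
      rw [h3] at h2
      have h4 : w⁻¹ (w (g⁻¹ v)) = g⁻¹ v := LinearEquiv.symm_apply_apply w _
      rw [h2] at h4
      exact h4

lemma Xi_eq : (CG D he hpos).Xi = (CW D he hpos).Xi := by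
  ext x
  constructor
  · rintro ⟨h0, g, hg, a, ha, h⟩
    exact ⟨h0, g, Gsub_le D he hpos hg, a, ha, h⟩
  · intro hx
    obtain ⟨h0, w, hw, a, ha, h⟩ := hx
    obtain ⟨g, hg, hag⟩ := agree D he hpos hw
    refine ⟨h0, g, hg, a, ha, ?_⟩
    rw [← h]
    exact (hag x (Submodule.subset_span ⟨h0, w, hw, a, ha, h⟩)).symm

lemma V1_eq : (CG D he hpos).V1 = (CW D he hpos).V1 := by
  unfold Ctx.V1
  rw [Xi_eq]

lemma move : ∀ x ∈ (CG D he hpos).Xi, ∃ k ∈ (CG D he hpos).G, (CG D he hpos).B (k x) x ≠ 0 := by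
  intro x hx
  by_contra hcon
  push Not at hcon
  have hx1 : x ∈ (CW D he hpos).V1 := by
    rw [← V1_eq]
    exact Submodule.subset_span hx
  have hxx : D.formL x x = 0 := (CG D he hpos).Xi_light hx
  have h1 : ∀ s, D.formL (al s) x = 0 := by
    intro s
    rcases root_alt D he hpos s with h | h
    · have h2 : D.formL (D.refl s x) x = 0 := hcon (D.refl s)
        (Subgroup.subset_closure ⟨s, h, rfl⟩)
      rw [D.refl_apply, map_sub, map_smul, LinearMap.sub_apply, LinearMap.smul_apply, hxx,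
        smul_eq_mul] at h2
      have h3 : D.formL (al s) x * D.formL (al s) x = 0 := by linarith
      exact mul_self_eq_zero.1 h3
    · exact h x hx1
  exact hx.1 ((CG D he hpos).nondeg (eq_zero_of_al D h1))

/-- The group acts trivially on the orthogonal complement. -/
lemma triv {g : (ι → ℝ) ≃ₗ[ℝ] (ι → ℝ)} (hg : g ∈ Gsub D he hpos) {v : ι → ℝ}
    (hv : ∀ z ∈ (CG D he hpos).V1, D.formL z v = 0) : g v = v := by
  unfold Gsub at hg
  induction hg using Subgroup.closure_induction with
  | mem w hw =>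
      obtain ⟨s, hs, rfl⟩ := hw
      rw [← V1_eq] at hs
      rw [D.refl_apply, hv _ hs, mul_zero, zero_smul, sub_zero]
  | one => rfl
  | mul w w' _ _ ih ih' =>
      show w (w' v) = v
      rw [ih', ih]
  | inv w _ ih =>
      have h4 : w⁻¹ (w v) = v := LinearEquiv.symm_apply_apply w _
      rwa [ih] at h4

/-- The decomposition along the span and its orthogonal complement. -/
lemma decomp (hne : (CG D he hpos).Xi.Nonempty) :
    ∃ P : (ι → ℝ) →ₗ[ℝ] (ι → ℝ), (∀ v, P v ∈ (CG D he hpos).V1) ∧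
      ∀ v, ∀ z ∈ (CG D he hpos).V1, D.formL z (v - P v) = 0 := by
  obtain ⟨x, hx⟩ := hne
  obtain ⟨g, y, a, h⟩ := (CG D he hpos).exists_HP hx
  have hrefl : LinearMap.BilinForm.IsRefl D.formL := by
    intro u v huv
    rw [D.form_comm]
    exact huv
  have hdisj : Disjoint (CG D he hpos).V1
      (LinearMap.BilinForm.orthogonal D.formL (CG D he hpos).V1) := by
    rw [Submodule.disjoint_def]
    intro w hw hw'
    refine h.V1_nd hw fun v hv => ?_
    have h1 : D.formL v w = 0 := LinearMap.BilinForm.mem_orthogonal_iff.1 hw' v hv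
    show D.formL w v = 0
    rw [D.form_comm]
    exact h1
  have hc := (LinearMap.BilinForm.isCompl_orthogonal_iff_disjoint hrefl).2 hdisj
  refine ⟨Submodule.projection _ _ hc, fun v => Submodule.projection_apply_mem hc v,
    fun v z hz => ?_⟩
  have h1 : v - Submodule.projection _ _ hc v ∈
      LinearMap.BilinForm.orthogonal D.formL (CG D he hpos).V1 := by
    have h2 := Submodule.projection_add_projection_eq_self hc v
    have h3 : v - Submodule.projection _ _ hc v = Submodule.projection _ _ hc.symm v :=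
      sub_eq_iff_eq_add'.2 h2.symm
    rw [h3]
    exact Submodule.projection_apply_mem hc.symm v
  exact LinearMap.BilinForm.mem_orthogonal_iff.1 h1 z hz

include he hpos in
/-- A hyperbolic element has a real eigenvector with an eigenvalue of modulus `> 1`. -/
lemma real_eig {w : (ι → ℝ) ≃ₗ[ℝ] (ι → ℝ)} (hw : w ∈ D.W) (hh : IsHyperbolic w) :
    ∃ (x : ι → ℝ) (a : ℝ), x ≠ 0 ∧ 1 < |a| ∧ w x = a • x := by
  obtain ⟨μ, z, hμ, hz, hwz⟩ := hh
  set r := μ.re with hr
  set t := μ.im with ht
  let u : ι → ℝ := fun i => (z i).re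
  let v : ι → ℝ := fun i => (z i).im
  have hmul : ∀ y : ι → ℝ, w y =
      (LinearMap.toMatrix' (w : (ι → ℝ) →ₗ[ℝ] (ι → ℝ))).mulVec y := by
    intro y
    rw [LinearMap.toMatrix'_mulVec]
    rfl
  have hu : w u = r • u - t • v := by
    rw [hmul]
    ext i
    have h1 := congrArg Complex.re (congrFun hwz i)
    simp only [Matrix.mulVec, dotProduct, Matrix.map_apply, Pi.smul_apply, smul_eq_mul,
      Complex.re_sum, Complex.mul_re, Complex.ofReal_re, Complex.ofReal_im, zero_mul,
      sub_zero] at h1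
    simp only [Matrix.mulVec, dotProduct, Pi.sub_apply, Pi.smul_apply, smul_eq_mul]
    exact h1
  have hv : w v = t • u + r • v := by
    rw [hmul]
    ext i
    have h1 := congrArg Complex.im (congrFun hwz i)
    simp only [Matrix.mulVec, dotProduct, Matrix.map_apply, Pi.smul_apply, smul_eq_mul,
      Complex.im_sum, Complex.mul_im, Complex.ofReal_re, Complex.ofReal_im, zero_mul,
      add_zero] at h1
    simp only [Matrix.mulVec, dotProduct, Pi.add_apply, Pi.smul_apply, smul_eq_mul]
    rw [h1]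
    ring
  have hμ2 : 1 < r ^ 2 + t ^ 2 := by
    have h1 : ‖μ‖ ^ 2 = r ^ 2 + t ^ 2 := by
      rw [← Complex.normSq_eq_norm_sq, Complex.normSq_apply]
      ring
    nlinarith
  have huv0 : u ≠ 0 ∨ v ≠ 0 := by
    by_contra hcon
    push Not at hcon
    apply hz
    ext i
    exact Complex.ext (congrFun hcon.1 i) (congrFun hcon.2 i)
  have f1 := D.form_W hw u u
  have f2 := D.form_W hw u v
  have f3 := D.form_W hw v v
  have hvu := D.form_comm v u
  rw [hu] at f1
  rw [hu, hv] at f2
  rw [hv] at f3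
  simp only [map_sub, map_add, map_smul, LinearMap.sub_apply, LinearMap.add_apply,
    LinearMap.smul_apply, smul_eq_mul, hvu] at f1 f2 f3
  set A := D.formL u u with hA
  set B := D.formL u v with hB
  set E := D.formL v v with hE
  have k1 : (r ^ 2 + t ^ 2 - 1) * (A + E) = 0 := by linarith
  have k2 : A + E = 0 := (mul_eq_zero.1 k1).resolve_left (by linarith)
  have hEA : E = -A := by linarith
  rw [hEA] at f1 f2
  have g1 : (r ^ 2 - t ^ 2) * A - 2 * r * t * B = A := by linarith
  have g2 : 2 * r * t * A + (r ^ 2 - t ^ 2) * B = B := by linarith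
  have k3 : ((r ^ 2 + t ^ 2) ^ 2 - 1) * (A ^ 2 + B ^ 2) = 0 := by
    have h1 : (r ^ 2 + t ^ 2) ^ 2 * (A ^ 2 + B ^ 2) =
        ((r ^ 2 - t ^ 2) * A - 2 * r * t * B) ^ 2 +
        (2 * r * t * A + (r ^ 2 - t ^ 2) * B) ^ 2 := by ring
    rw [g1, g2] at h1
    linarith
  have k4 : A ^ 2 + B ^ 2 = 0 := (mul_eq_zero.1 k3).resolve_left (by nlinarith)
  have hA0 : A = 0 := by nlinarith [sq_nonneg A, sq_nonneg B]
  have hB0 : B = 0 := by nlinarith [sq_nonneg A, sq_nonneg B]
  have hE0 : E = 0 := by rw [hEA, hA0, neg_zero]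
  have hlast : ∀ (a : ℝ), a = r → t = 0 → 1 < |a| := by
    intro a ha ht0
    rw [ha]
    rw [ht0] at hμ2
    have h1 : 1 < |r| ^ 2 := by
      rw [sq_abs]
      linarith
    nlinarith [abs_nonneg r]
  by_cases hu0 : u = 0
  · have hv0 : v ≠ 0 := by
      rcases huv0 with h | h
      · exact absurd hu0 h
      · exact h
    have ht0 : t = 0 := by
      rw [hu0, map_zero, smul_zero, zero_sub] at hu
      have h1 : t • v = 0 := by
        rw [← neg_eq_zero]
        exact hu.symm
      exact (smul_eq_zero.1 h1).resolve_right hv0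
    refine ⟨v, r, hv0, hlast r rfl ht0, ?_⟩
    rw [hv, ht0, zero_smul, zero_add]
  · obtain ⟨c, hc⟩ := (CW D he hpos).causal_dep (x := u) (y := v) hA0.le hE0.le hB0 hu0
    have h1 : (t * (1 + c ^ 2)) • u = 0 := by
      have h2 : w v = c • w u := by
        conv_lhs => rw [hc]
        rw [map_smul]
      rw [hv, hu, hc] at h2
      have h3 : (t * (1 + c ^ 2)) • u = (t • u + r • c • u) - c • (r • u - t • c • u) := by
        module
      rw [h3, h2, sub_self]
    have ht0 : t = 0 := by
      have h2 := (smul_eq_zero.1 h1).resolve_right hu0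
      exact (mul_eq_zero.1 h2).resolve_right (by positivity)
    refine ⟨u, r, hu0, hlast r rfl ht0, ?_⟩
    rw [hu, ht0, zero_smul, sub_zero]

/-- A hyperbolic element gives a hyperbolic pair. -/
lemma toHP {w : (ι → ℝ) ≃ₗ[ℝ] (ι → ℝ)} (hw : w ∈ D.W) (hh : IsHyperbolic w) :
    ∃ g x y a, (CG D he hpos).HP g x y a ∧
      ∀ v ∈ unimod D w, D.formL v x = 0 ∧ D.formL v y = 0 := by
  obtain ⟨x, a, hx, ha, hwx⟩ := real_eig D he hpos hw hh
  obtain ⟨y, h⟩ := (CW D he hpos).HP_of_eig hw hx ha hwx
  obtain ⟨g, hg, hag⟩ := agree D he hpos hw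
  refine ⟨g, x, y, a, ⟨hg, hx, h.y0, ha, ?_, ?_⟩, fun v hv => ⟨hv x a hwx ?_, hv y a⁻¹ h.gy ?_⟩⟩
  · rw [← hwx]
    exact (hag x (Submodule.subset_span h.xXi)).symm
  · rw [← h.gy]
    exact (hag y (Submodule.subset_span h.yXi)).symm
  · exact ha.ne'
  · rw [abs_inv]
    intro h1
    exact ha.ne' (by rw [← inv_inv |a|, h1, inv_one])

end Red

/-- Points of the closure of a set of directions. -/
lemma near_of_closure {S : Set (ℙ ℝ (ι → ℝ))} {x : ι → ℝ} (hx : x ≠ 0)
    (h : Projectivization.mk ℝ x hx ∈ closure S) {ε : ℝ} (hε : 0 < ε) :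
    ∃ (u : ι → ℝ) (hu : u ≠ 0), ‖u - x‖ < ε ∧ Projectivization.mk ℝ u hu ∈ S := by
  rw [mem_closure_iff_nhds] at h
  obtain ⟨q, ⟨u, hu, h1, rfl⟩, h2⟩ := h _ ((nearDir_open x ε).mem_nhds (mem_nearDir hx hε))
  exact ⟨u, hu, h1, h2⟩

/-- Every point of the closure of the union of the unimodular subspaces is a limit direction. -/
theorem main (D : GeomCoxeter ι) (hD : D.Lorentzian) :
    closure (unimodHyp D) ⊆ limitDirections D := by
  obtain ⟨e, he, hpos⟩ := exists_e D hD
  intro p hp
  obtain ⟨x, hx, rfl⟩ : ∃ (x : ι → ℝ) (hx : x ≠ 0), p = Projectivization.mk ℝ x hx :=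
    ⟨p.rep, p.rep_nonzero, p.mk_rep.symm⟩
  set C := CG D he hpos with hC
  have hmove := move D he hpos
  have hCB : ∀ u v, C.B u v = D.formL u v := fun _ _ => rfl
  -- vectors near `x` orthogonal to hyperbolic pairs
  have near : ∀ ε : ℝ, 0 < ε → ∃ u : ι → ℝ, ‖u - x‖ < ε ∧ ∃ g x' y' a, C.HP g x' y' a ∧
      D.formL u x' = 0 ∧ D.formL u y' = 0 := by
    intro ε hε
    obtain ⟨u, hu, h1, h2⟩ := near_of_closure hx hp hε
    obtain ⟨w, hw, hh, hpw⟩ := h2
    obtain ⟨g, x', y', a, hg, hperp⟩ := toHP D he hpos hw hh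
    obtain ⟨hpx, hpy⟩ := hperp _ hpw
    obtain ⟨c, hc⟩ := Projectivization.exists_smul_eq_mk_rep ℝ u hu
    have hc' : (c : ℝ) • u = (Projectivization.mk ℝ u hu).rep := hc
    have hc0 : (c : ℝ) ≠ 0 := c.ne_zero
    refine ⟨u, h1, g, x', y', a, hg, ?_, ?_⟩
    · rw [← hc', map_smul, LinearMap.smul_apply, smul_eq_mul] at hpx
      exact (mul_eq_zero.1 hpx).resolve_left hc0
    · rw [← hc', map_smul, LinearMap.smul_apply, smul_eq_mul] at hpy
      exact (mul_eq_zero.1 hpy).resolve_left hc0
  obtain ⟨-, -, g0, x0, y0, a0, h0, -, -⟩ := near 1 one_pos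
  obtain ⟨P, hP1, hP2⟩ := decomp D he hpos ⟨x0, h0.xXi⟩
  set x1 := P x with hx1
  set x2 := x - P x with hx2
  have hxx : x = x1 + x2 := by rw [hx1, hx2]; abel
  have htriv : ∀ k ∈ C.G, k x2 = x2 := fun k hk => triv D he hpos hk (hP2 x)
  have hGW : ∀ k ∈ C.G, k ∈ D.W := fun k hk => Gsub_le D he hpos hk
  have horth : ∀ z ∈ C.V1, D.formL z x2 = 0 := hP2 x
  -- the component in `V1` is in the closure of `R`
  have hx1R : x1 ∈ closure C.R := by
    rw [Metric.mem_closure_iff]
    intro ε hε
    obtain ⟨M, hM, hMb⟩ := Ctx.lin_bound P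
    obtain ⟨u, hu, g, x', y', a, h, hux, huy⟩ := near (ε / M) (by positivity)
    refine ⟨P u, ⟨hP1 u, g, x', y', a, h, ?_⟩, ?_⟩
    · have key : ∀ z ∈ C.V1, D.formL u z = 0 → D.formL (P u) z = 0 := by
        intro z hz huz
        have h1 := hP2 u z hz
        rw [map_sub, D.form_comm z u, huz, D.form_comm z (P u)] at h1
        linarith
      exact C.mem_perp.2 ⟨key x' (Submodule.subset_span h.xXi) hux,
        key y' (Submodule.subset_span h.yXi) huy⟩
    · rw [dist_eq_norm, hx1, ← map_sub, ← norm_neg, ← map_neg, neg_sub]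
      refine (hMb _).trans_lt ?_
      calc M * ‖u - x‖ < M * (ε / M) := by gcongr
        _ = ε := by field_simp
  have hx1V : x1 ∈ C.V1 := hP1 x
  have hx12 : ∀ z ∈ C.V1, z = x2 → x2 = 0 := by
    intro z hz h1
    rw [h1] at hz
    exact h0.V1_nd hz fun v hv => by
      show D.formL x2 v = 0
      rw [D.form_comm]
      exact horth v hv
  by_cases hx10 : x1 = 0
  · -- the limit is orthogonal to `V1`
    have hx20 : x2 ≠ 0 := by
      intro h2
      apply hx
      rw [hxx, hx10, h2, add_zero]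
    have hxx2 : x = x2 := by rw [hxx, hx10, zero_add]
    have hv0 : y0 + x2 ≠ 0 := by
      intro h2
      have h3 : -y0 = x2 := by
        rw [eq_comm, ← add_eq_zero_iff_eq_neg, add_comm]
        exact h2
      exact hx20 (hx12 _ (C.V1.neg_mem (Submodule.subset_span h0.yXi)) h3)
    refine limit_of_near D hv0 hx fun ε hε => ?_
    have ht : Tendsto (fun n : ℕ => (g0 ^ n) y0) atTop (𝓝 0) := by
      have t3 : Tendsto (fun n : ℕ => (a0 ^ n)⁻¹) atTop (𝓝 (0 : ℝ)) := by
        rw [tendsto_zero_iff_abs_tendsto_zero]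
        refine (h0.inv_pow_tendsto).congr (fun n => ?_)
        simp [Function.comp, abs_inv, abs_pow]
      have t4 := t3.smul_const y0
      rw [zero_smul] at t4
      exact t4.congr (fun n => (h0.pow_y n).symm)
    obtain ⟨n, hn⟩ := (Metric.tendsto_nhds.1 ht ε hε).exists
    rw [dist_zero_right] at hn
    refine ⟨g0 ^ n, hGW _ (h0.powmem n), 1, one_ne_zero, ?_, ?_⟩
    · rw [one_smul, map_add, htriv _ (h0.powmem n), hxx2, add_sub_cancel_right]
      exact hn
    · intro t h2
      rw [map_add, htriv _ (h0.powmem n), hxx2] at h2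
      have h3 : (g0 ^ n) y0 = (t - 1) • x2 := by
        rw [sub_smul, one_smul, ← h2, add_sub_cancel_right]
      have h4 : (g0 ^ n) y0 ∈ C.V1 :=
        C.V1_map (h0.powmem n) (Submodule.subset_span h0.yXi)
      have h5 : (t - 1) ≠ 0 := by
        intro h6
        rw [h6, zero_smul] at h3
        exact h0.y0 ((g0 ^ n).injective (h3.trans (map_zero _).symm))
      have h6 := C.V1.smul_mem (t - 1)⁻¹ h4
      rw [h3, smul_smul, inv_mul_cancel₀ h5, one_smul] at h6
      exact hx20 (hx12 _ h6 rfl)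
  · by_cases hx20 : x2 = 0
    · have hxx1 : x = x1 := by rw [hxx, hx20, add_zero]
      by_cases hc : 0 < D.formL x1 x1
      · -- a space-like limit in `V1`
        obtain ⟨v, hvV, hv⟩ := Ctx.orbit_all hmove hx1R hx10
        have hvv : D.formL v v = D.formL x1 x1 := by
          choose k hk hkv _ using fun n : ℕ => hv (1 / ((n : ℝ) + 1)) (by positivity)
          have hlim : Tendsto (fun n => k n v) atTop (𝓝 x1) := by
            rw [tendsto_iff_norm_sub_tendsto_zero]
            exact squeeze_zero (fun _ => norm_nonneg _) (fun n => (hkv n).le)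
              tendsto_one_div_add_atTop_nhds_zero_nat
          have h1 := C.tend hlim hlim
          refine tendsto_nhds_unique (tendsto_const_nhds.congr fun n => ?_) h1
          exact (C.inv _ (hk n) v v).symm
        have hv0 : v ≠ 0 := by
          rintro rfl
          rw [map_zero] at hvv
          linarith
        refine limit_of_near D hv0 hx fun ε hε => ?_
        obtain ⟨k, hk, hkv, hne⟩ := hv (min ε ‖x1‖) (lt_min hε (norm_pos_iff.2 hx10))
        refine ⟨k, hGW k hk, 1, one_ne_zero, ?_, fun t h2 => ?_⟩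
        · rw [one_smul, hxx1]
          exact hkv.trans_le (min_le_left _ _)
        · rw [hxx1] at h2
          have h3 : D.formL (k v) (k v) = D.formL v v := C.inv k hk v v
          rw [h2, hvv, map_smul, map_smul, LinearMap.smul_apply, smul_eq_mul, smul_eq_mul] at h3
          have h4 : (t * t - 1) * D.formL x1 x1 = 0 := by linarith
          have h5 : t * t = 1 := by
            have := (mul_eq_zero.1 h4).resolve_right hc.ne'
            linarith
          rcases mul_self_eq_one_iff.1 h5 with h6 | h6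
          · rw [h6, one_smul] at h2
            exact hne h2
          · rw [h2, h6] at hkv
            have h7 : (-1 : ℝ) • x1 - x1 = (-2 : ℝ) • x1 := by module
            rw [h7, norm_smul] at hkv
            have h8 := hkv.trans_le (min_le_right _ _)
            have h9 : 0 < ‖x1‖ := norm_pos_iff.2 hx10
            norm_num at h8
            linarith
      · -- a light-like limit in `V1`
        obtain ⟨q, hq, hq0⟩ := Ctx.R_sub_perp hx1R
        obtain ⟨t, ht⟩ := C.light_dep (C.L_light hq) hq.1 (not_lt.1 hc) hq0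
        have ht0 : t ≠ 0 := by
          rintro rfl
          exact hx10 (by rw [ht, zero_smul])
        have hx1L : x1 ∈ C.L := by rw [ht]; exact C.L_smul hq ht0
        have he0 : e ≠ 0 := fun h0 => by
          have he' := he
          rw [h0, map_zero] at he'
          exact lt_irrefl _ he'
        refine limit_of_near D he0 hx fun ε hε => ?_
        obtain ⟨z, hz, hzX⟩ := C.L_near hx1L (Metric.ball_mem_nhds x1 (half_pos hε))
        obtain ⟨g, y, a, h⟩ := C.exists_HP hzX
        have hey : C.B e y ≠ 0 := by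
          rw [C.symm]
          exact C.ne_e h.y0 h.yy.le
        have hs : C.B e y / C.B z y ≠ 0 := div_ne_zero hey h.xy
        have t1 := (h.attract e).const_smul ((C.B e y / C.B z y)⁻¹)
        rw [smul_smul, inv_mul_cancel₀ hs, one_smul] at t1
        obtain ⟨n, hn⟩ := (Metric.tendsto_nhds.1 t1 (ε / 2) (half_pos hε)).exists
        refine ⟨g ^ n, hGW _ (h.powmem n), (C.B e y / C.B z y)⁻¹ * (a ^ n)⁻¹,
          mul_ne_zero (inv_ne_zero hs) (inv_ne_zero (pow_ne_zero _ h.a0)), ?_, fun t' h2 => ?_⟩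
        · rw [mul_smul, hxx1, ← dist_eq_norm]
          rw [Metric.mem_ball] at hz
          calc _ ≤ dist ((C.B e y / C.B z y)⁻¹ • (a ^ n)⁻¹ • (g ^ n) e) z + dist z x1 :=
                dist_triangle _ _ _
            _ < ε / 2 + ε / 2 := by gcongr
            _ = ε := by ring
        · have h3 : D.formL ((g ^ n) e) ((g ^ n) e) = D.formL e e := C.inv _ (h.powmem n) e e
          rw [h2, hxx1, map_smul, LinearMap.map_smul, LinearMap.smul_apply, smul_eq_mul,
            smul_eq_mul] at h3
          have h4 : D.formL x1 x1 = 0 := C.L_light hx1L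
          rw [h4, mul_zero, mul_zero] at h3
          linarith
    · -- a limit with two components
      obtain ⟨v, hvV, hv⟩ := Ctx.orbit_all hmove hx1R hx10
      have hv0 : v + x2 ≠ 0 := by
        intro h2
        have h3 : -v = x2 := by
          rw [eq_comm, ← add_eq_zero_iff_eq_neg, add_comm]
          exact h2
        exact hx20 (hx12 _ (C.V1.neg_mem hvV) h3)
      refine limit_of_near D hv0 hx fun ε hε => ?_
      obtain ⟨k, hk, hkv, hne⟩ := hv ε hε
      refine ⟨k, hGW k hk, 1, one_ne_zero, ?_, fun t h2 => ?_⟩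
      · rw [one_smul, map_add, htriv k hk, hxx, add_sub_add_right_eq_sub]
        exact hkv
      · rw [map_add, htriv k hk, hxx, smul_add] at h2
        have h3 : k v - t • x1 = (t - 1) • x2 := by
          rw [sub_smul, one_smul, sub_eq_sub_iff_add_eq_add, h2]
          abel
        have h4 : k v - t • x1 ∈ C.V1 := C.V1.sub_mem (C.V1_map hk hvV) (C.V1.smul_mem _ hx1V)
        by_cases h5 : t - 1 = 0
        · have h6 : t = 1 := by linarith
          rw [h5, zero_smul, h6, one_smul] at h3
          exact hne (sub_eq_zero.1 h3)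
        · have h6 := C.V1.smul_mem (t - 1)⁻¹ h4
          rw [h3, smul_smul, inv_mul_cancel₀ h5, one_smul] at h6
          exact hx20 (hx12 _ h6 rfl)

end General

/-- For every Lorentzian geometric Coxeter system the closure of the union of the unimodular
subspaces of the hyperbolic elements consists of limit directions. -/
theorem result : ∀ (ι : Type) [Fintype ι] [DecidableEq ι] (D : GeomCoxeter ι), D.Lorentzian →
    closure (unimodHyp D) ⊆ limitDirections D := fun _ _ _ D hD => main D hD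

end Pool.Agent.Results.MP_de6c1e_al.ClosureOfUnimodular
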